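import Pool.Agent.R484.JGc

/-!
# MP_ad7a55_nt: Galois orbits of special points, distinct CM fields or nearly coprime conductors

`CMTheory` (module `R484.JEe`) records the congruence modular curves (of level dividing a fixed
integer), their CM points with the action of the Galois group of the rational numbers, and published
theorems: the main theorem of complex multiplication, genus theory, and the equidistribution on a
single modular curve of the orbits of CM points under subgroups of small index of the class groups
(Duke, Zhang, Harcos-Michel); `RingClass` (module `R484.JGc`) records conductors, ring class fields
and class numbers.

We prove question Q1, for products of any number of modular curves, for the sequences of special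
points such that, for any coordinate `x_j` with the same CM field `K` as another one, the class
number of the order of `K` with conductor `gcd(f_j, lcm f_k)`, `k` running over the other coordinates
with CM field `K`, is smaller than any power of the discriminant of `x_j`.  For example there is no
condition if the CM fields are pairwise distinct, and for a fixed CM field it suffices that the
conductors are pairwise coprime.  Hence Q1 is reduced to the opposite case.  Moreover blocks of
coordinates with distinct CM fields are independent of each other.
-/

namespace Pool.Agent.Results.MP_ad7a55_nt.NearlyCoprimeConductors

open MulAction MeasureTheory Filter Topology Pool.Agent.R484.JE Pool.Agent.R484.JG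

theorem result (T : CMTheory) (R : RingClass T.toModCurves) (F : IntermediateField ℚ Qb)
    [FiniteDimensional ℚ F] :
    -- (1) distinct CM fields or nearly coprime conductors
    (∀ {n : ℕ} (c : Fin n → T.Crv) (S : Special T.toModCurves c), (∀ j, T.L (c j) ≤ F) →
      ∀ x, Strict S x → Near R x → Equi T.toModCurves c F x) ∧
    -- (2) Q1 follows from Q1 for sequences of points which are far from this case
    (∀ {n : ℕ} (c : Fin n → T.Crv) (S : Special T.toModCurves c), (∀ j, T.L (c j) ≤ F) →
      (∀ x, Strict S x → Far R x → Equi T.toModCurves c F x) →
      ∀ x, Strict S x → Equi T.toModCurves c F x) ∧
    -- (3) independence of blocks of coordinates with distinct CM fields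
    (∀ {r : ℕ} {J : Fin r → ℕ} (c : ∀ b, Fin (J b) → T.Crv) x K, BlockFields x K →
      (∀ b, BlockSmall T.toModCurves c F x K b) → BlockEqui T.toModCurves c F x) := by
  refine ⟨?_, ?_, ?_⟩
  · intro n c S hF x hx hn
    exact strict_near T R c S F hF x hx hn
  · intro n c S hF h x hx
    exact reduceR T R c S F hF h x hx
  · intro r J c x K hK h
    exact block_indep T c F x K hK h

end Pool.Agent.Results.MP_ad7a55_nt.NearlyCoprimeConductors
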